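import Pool.Agent.helper60.DA.SpecV

/-!
# MP_fb2c2a_nt, row dv:FO1
-/

set_option autoImplicit false

namespace Pool.Agent.helper60.DA

open Polynomial Finset Pool.Agent.helper60.DK

/-- the identity behind dv:FO1 -/
theorem FO1_aux1 {R : Type*} [CommRing R] (c W W1 W2 v v1 v2 x T T1 : R) (hc : 2 * c = 3)
    (hT : T = x * ((1 + x) * (v1 * W - v * W1) + c * W ^ 2))
    (hT1 : T1 = ((1 + x) * (v1 * W - v * W1) + c * W ^ 2) +
      x * ((v1 * W - v * W1) + (1 + x) * (v2 * W - v * W2) + c * (2 * (W * W1)))) :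
    8 * x * (1 + x) * ((1 + 4 * x) * (T1 * W - T * W1) + 2 * (T * W)) =
      W * (4 * x ^ 2 * (1 + x) ^ 2 * (1 + 4 * x) *
          (2 * (W * v2) + 2 * (v * W2) - 2 * (W1 * v1))
        + 8 * x * (1 + x) * (1 + 8 * x + 10 * x ^ 2) * (W * v1 + v * W1)
        + 2 * (12 * x + 51 * x ^ 2 + 36 * x ^ 3) * (W * v)
        + 12 * x * (1 + x) * (x * (1 + 4 * x) * (W * W1) + (1 + 6 * x) * W ^ 2))
      - 2 * v * (4 * x ^ 2 * (1 + x) ^ 2 * (1 + 4 * x) * (2 * W * W2 - W1 ^ 2)
        + 8 * x * (1 + x) * (1 + 8 * x + 10 * x ^ 2) * W * W1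
        + (12 * x + 51 * x ^ 2 + 36 * x ^ 3) * W ^ 2) := by
  subst hT hT1
  linear_combination (4 * x * (1 + x) * W * (x * (1 + 4 * x) * (W * W1) + (1 + 6 * x) * W ^ 2)) * hc

theorem FO1 (hR2 : R2_stmt) (hJW : JW_stmt) : FO1_stmt := by
  intro p hp h7 V hV
  have r2 := hR2 p h7 V hV
  have jw := hJW p h7
  obtain ⟨v, hv⟩ : ∃ v, v = red p V := ⟨_, rfl⟩
  obtain ⟨W, hW⟩ : ∃ W, W = Wp p := ⟨_, rfl⟩
  rw [← hv, ← hW] at r2
  rw [← hW] at jw
  rw [← hv]
  have h2 : (2 : ZMod p) ≠ 0 := two_ne (by omega)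
  have hc : 2 * (C (3 / 2 : ZMod p) : (ZMod p)[X]) = 3 := by
    have e1 : (2 : (ZMod p)[X]) = C (2 : ZMod p) := (map_ofNat C 2).symm
    have e2 : (3 : (ZMod p)[X]) = C (3 : ZMod p) := (map_ofNat C 3).symm
    rw [e1, e2, ← C_mul]
    congr 1
    field_simp
  have hT : Th p v = X * ((1 + X) * (derivative v * W - v * derivative W) +
      C (3 / 2) * W ^ 2) := by
    unfold Th
    rw [hW]
  have hT1 : derivative (Th p v) = ((1 + X) * (derivative v * W - v * derivative W) +
      C (3 / 2) * W ^ 2) +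
      X * ((derivative v * W - v * derivative W) + (1 + X) * (derivative (derivative v) * W -
        v * derivative (derivative W)) + C (3 / 2) * (2 * (W * derivative W))) := by
    rw [hT]
    simp only [derivative_add, derivative_mul, derivative_sub, pow_two, derivative_X,
      derivative_one, derivative_C]
    ring
  have key := FO1_aux1 (C (3 / 2 : ZMod p)) W (derivative W) (derivative (derivative W)) v
    (derivative v) (derivative (derivative v)) X (Th p v) (derivative (Th p v)) hc hT hT1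
  unfold Jop at jw
  rw [r2, jw, mul_zero, mul_zero, sub_zero] at key
  have hne : (8 * X * (1 + X) : (ZMod p)[X]) ≠ 0 := by
    have e8 : (8 : (ZMod p)[X]) = C (2 * 2 * 2 : ZMod p) := by
      have : (2 * 2 * 2 : ZMod p) = 8 := by norm_num
      rw [this]
      exact (map_ofNat C 8).symm
    refine mul_ne_zero (mul_ne_zero ?_ X_ne_zero) ?_
    · rw [e8, Ne, C_eq_zero]
      exact mul_ne_zero (mul_ne_zero h2 h2) h2
    · rw [add_comm]
      have : (X + 1 : (ZMod p)[X]) = X + C 1 := by rw [map_one]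
      rw [this]
      exact X_add_C_ne_zero 1
  have key2 : (1 + 4 * X) * (derivative (Th p v) * W - Th p v * derivative W) +
      2 * (Th p v * W) = 0 := by
    rcases mul_eq_zero.1 key with h | h
    · exact absurd h hne
    · exact h
  have hh1 : 2 * hh p + 1 = p := by
    have hodd : p % 2 = 1 := by
      rcases hp.out.eq_two_or_odd with h | h
      · omega
      · exact h
    unfold hh
    omega
  obtain ⟨m, hm⟩ : ∃ m, hh p = m + 1 := ⟨hh p - 1, by omega⟩
  have h4h : (4 : (ZMod p)[X]) * ((m : (ZMod p)[X]) + 1) = -2 := by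
    have e1 : ((2 * (m + 1) + 1 : ℕ) : (ZMod p)[X]) = 0 := by
      rw [← hm, hh1]
      have : ((p : ℕ) : (ZMod p)[X]) = C ((p : ℕ) : ZMod p) := (map_natCast C p).symm
      rw [this, ZMod.natCast_self, C_0]
    push_cast at e1
    linear_combination 2 * e1
  have hP : Pp p = (1 + 4 * X) ^ (m + 1) * W := by
    unfold Pp
    rw [hm, hW]
  have hP1 : derivative (Pp p) = ((m : (ZMod p)[X]) + 1) * (1 + 4 * X) ^ m * 4 * W +
      (1 + 4 * X) ^ (m + 1) * derivative W := by
    rw [hP, derivative_mul, derivative_pow]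
    have e4 : derivative (1 + 4 * X : (ZMod p)[X]) = 4 := by
      simp only [derivative_add, derivative_one, derivative_mul, derivative_ofNat, derivative_X]
      ring
    have eC : (C (((m + 1 : ℕ)) : ZMod p) : (ZMod p)[X]) = (m : (ZMod p)[X]) + 1 := by
      rw [map_natCast]
      push_cast
      ring
    rw [e4, Nat.add_sub_cancel, eC]
  rw [hP1, hP, pow_succ]
  linear_combination (1 + 4 * X) ^ m * key2 - (Th p v * (1 + 4 * X) ^ m * W) * h4h

end Pool.Agent.helper60.DA
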