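import Pool.Agent.helper60.DA.SpecJ

/-!
# MP_fb2c2a_nt, row dj:TC
-/

set_option autoImplicit false

namespace Pool.Agent.helper60.DA

open Polynomial Finset Pool.Agent.helper60.DK

theorem TC_aux1 (k : ℕ) :
    ((3 * (k + 1)).choose (k + 1)) * (2 * (k + 1) * (2 * k + 1)) =
      ((3 * k).choose k) * (3 * (3 * k + 2) * (3 * k + 1)) := by
  have h1 := Nat.add_choose_mul_factorial_mul_factorial (2 * k) k
  have h2 := Nat.add_choose_mul_factorial_mul_factorial (2 * k + 2) (k + 1)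
  have e1 : 2 * k + k = 3 * k := by ring
  have e2 : 2 * k + 2 + (k + 1) = 3 * (k + 1) := by ring
  have e3 : 3 * (k + 1) = 3 * k + 1 + 1 + 1 := by ring
  rw [e1] at h1
  rw [e2] at h2
  have f1 : (k + 1).factorial = (k + 1) * k.factorial := Nat.factorial_succ k
  have f2 : (2 * k + 2).factorial = (2 * k + 2) * ((2 * k + 1) * (2 * k).factorial) := by
    rw [Nat.factorial_succ, Nat.factorial_succ]
  have f3 : (3 * (k + 1)).factorial =
      (3 * k + 3) * ((3 * k + 2) * ((3 * k + 1) * (3 * k).factorial)) := by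
    rw [e3, Nat.factorial_succ, Nat.factorial_succ, Nat.factorial_succ]
  rw [f1, f2, f3, ← h1] at h2
  have hk : 0 < (k + 1) * (k.factorial * (2 * k).factorial) := by positivity
  apply Nat.eq_of_mul_eq_mul_left hk
  calc (k + 1) * (k.factorial * (2 * k).factorial) *
        (((3 * (k + 1)).choose (k + 1)) * (2 * (k + 1) * (2 * k + 1)))
      = (3 * (k + 1)).choose (k + 1) * ((2 * k + 2) * ((2 * k + 1) * (2 * k).factorial)) *
        ((k + 1) * k.factorial) := by ring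
    _ = (3 * k + 3) * ((3 * k + 2) * ((3 * k + 1) *
        ((3 * k).choose k * (2 * k).factorial * k.factorial))) := h2
    _ = (k + 1) * (k.factorial * (2 * k).factorial) *
        (((3 * k).choose k) * (3 * (3 * k + 2) * (3 * k + 1))) := by ring

theorem TC_aux2 (k : ℕ) :
    ak (k + 1) * ((k : ℤ) + 1) ^ 3 =
      ak k * (6 * (2 * (k : ℤ) + 1) * ((3 * (k : ℤ) + 1) * (3 * k + 2))) := by
  have h1 : ((k : ℤ) + 1) * ((k + 1).centralBinom : ℤ)
      = 2 * (2 * (k : ℤ) + 1) * (k.centralBinom : ℤ) := by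
    exact_mod_cast Nat.succ_mul_centralBinom_succ k
  have h2 : (((3 * (k + 1)).choose (k + 1) : ℕ) : ℤ) * (2 * ((k : ℤ) + 1) * (2 * k + 1)) =
      (((3 * k).choose k : ℕ) : ℤ) * (3 * (3 * (k : ℤ) + 2) * (3 * k + 1)) := by
    exact_mod_cast TC_aux1 k
  unfold ak
  calc ((k + 1).centralBinom : ℤ) ^ 2 * ((3 * (k + 1)).choose (k + 1) : ℤ) * ((k : ℤ) + 1) ^ 3
      = (((k : ℤ) + 1) * ((k + 1).centralBinom : ℤ)) ^ 2 *
        (((3 * (k + 1)).choose (k + 1) : ℤ) * ((k : ℤ) + 1)) := by ring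
    _ = (2 * (2 * (k : ℤ) + 1) * (k.centralBinom : ℤ)) ^ 2 *
        (((3 * (k + 1)).choose (k + 1) : ℤ) * ((k : ℤ) + 1)) := by rw [h1]
    _ = 2 * (2 * (k : ℤ) + 1) * (k.centralBinom : ℤ) ^ 2 *
        (((3 * (k + 1)).choose (k + 1) : ℤ) * (2 * ((k : ℤ) + 1) * (2 * k + 1))) := by ring
    _ = 2 * (2 * (k : ℤ) + 1) * (k.centralBinom : ℤ) ^ 2 *
        (((3 * k).choose k : ℤ) * (3 * (3 * (k : ℤ) + 2) * (3 * k + 1))) := by rw [h2]
    _ = (k.centralBinom : ℤ) ^ 2 * ((3 * k).choose k : ℤ) *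
        (6 * (2 * (k : ℤ) + 1) * ((3 * (k : ℤ) + 1) * (3 * k + 2))) := by ring

theorem TC : TC_stmt := by
  intro p hp h3 h6
  have hn : p = 3 * nn p + 1 := by
    unfold nn
    omega
  have hpp : (p : ZMod (p ^ 2)) * (p : ZMod (p ^ 2)) = 0 := by
    have : ((p ^ 2 : ℕ) : ZMod (p ^ 2)) = 0 := ZMod.natCast_self _
    push_cast at this
    rw [← this]; ring
  obtain ⟨P, hP⟩ : ∃ P : ZMod (p ^ 2), P = (p : ZMod (p ^ 2)) := ⟨_, rfl⟩
  have hPN : P = 3 * (nn p : ZMod (p ^ 2)) + 1 := by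
    rw [hP]
    have : ((p : ℕ) : ZMod (p ^ 2)) = ((3 * nn p + 1 : ℕ) : ZMod (p ^ 2)) := congrArg _ hn
    rw [this]
    push_cast
    ring
  rw [← hP] at hpp
  obtain ⟨N, hN⟩ : ∃ N : ZMod (p ^ 2), N = (nn p : ZMod (p ^ 2)) := ⟨_, rfl⟩
  rw [← hN] at hPN
  have key : ∀ k : ℕ, k < p →
      (3 * (ak k : ZMod (p ^ 2)) = (-27) ^ k * (2 * (cc (nn p) k : ZMod (p ^ 2)) +
        (cc (2 * nn p) k : ZMod (p ^ 2)))) ∧
      P * ((-27) ^ k * (cc (nn p) k : ZMod (p ^ 2))) = P * (ak k : ZMod (p ^ 2)) ∧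
      P * ((-27) ^ k * (cc (2 * nn p) k : ZMod (p ^ 2))) = P * (ak k : ZMod (p ^ 2)) := by
    intro k
    induction k with
    | zero =>
      intro _
      simp only [cc_zero, pow_zero, ak, Nat.centralBinom_zero, mul_zero, Nat.choose_self]
      norm_num
    | succ k ih =>
      intro hk
      obtain ⟨i1, i2, i3⟩ := ih (by omega)
      have hu : IsUnit (((k : ZMod (p ^ 2)) + 1) ^ 3) := by
        refine IsUnit.pow 3 ?_
        have h1 : ((k : ZMod (p ^ 2)) + 1) = ((k + 1 : ℕ) : ZMod (p ^ 2)) := by push_cast; ring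
        rw [h1]
        apply isUnit_of_rd_ne_zero
        rw [rd_natCast]
        exact cast_ne_zero_of_lt (by omega) hk
      have ra := congrArg (fun z : ℤ => (z : ZMod (p ^ 2))) (TC_aux2 k)
      have rn := congrArg (fun z : ℤ => (z : ZMod (p ^ 2))) (cc_succ (nn p) k)
      have rm := congrArg (fun z : ℤ => (z : ZMod (p ^ 2))) (cc_succ (2 * nn p) k)
      push_cast at ra rn rm
      rw [← hN] at rn rm
      obtain ⟨a, ha⟩ : ∃ a : ZMod (p ^ 2), a = (ak k : ZMod (p ^ 2)) := ⟨_, rfl⟩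
      obtain ⟨a', ha'⟩ : ∃ a : ZMod (p ^ 2), a = (ak (k + 1) : ZMod (p ^ 2)) := ⟨_, rfl⟩
      obtain ⟨v, hv⟩ : ∃ a : ZMod (p ^ 2), a = (cc (nn p) k : ZMod (p ^ 2)) := ⟨_, rfl⟩
      obtain ⟨v', hv'⟩ : ∃ a : ZMod (p ^ 2), a = (cc (nn p) (k + 1) : ZMod (p ^ 2)) := ⟨_, rfl⟩
      obtain ⟨w, hw⟩ : ∃ a : ZMod (p ^ 2), a = (cc (2 * nn p) k : ZMod (p ^ 2)) := ⟨_, rfl⟩
      obtain ⟨w', hw'⟩ : ∃ a : ZMod (p ^ 2), a = (cc (2 * nn p) (k + 1) : ZMod (p ^ 2)) :=
        ⟨_, rfl⟩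
      obtain ⟨t, ht⟩ : ∃ a : ZMod (p ^ 2), a = (-27) ^ k := ⟨_, rfl⟩
      obtain ⟨x, hx⟩ : ∃ a : ZMod (p ^ 2), a = (k : ZMod (p ^ 2)) := ⟨_, rfl⟩
      rw [pow_succ (-27 : ZMod (p ^ 2)) k, ← ha', ← hv', ← hw', ← ht]
      rw [← ha, ← hv, ← hw, ← ht] at i1
      rw [← ha, ← hv, ← ht] at i2
      rw [← ha, ← hw, ← ht] at i3
      rw [← ha, ← ha', ← hx] at ra
      rw [← hv, ← hv', ← hx] at rn
      rw [← hw, ← hw', ← hx] at rm
      rw [← hx] at hu
      clear ha ha' hv hv' hw hw' ht hx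
      -- `9 N (N + 1) = P^2 + P - 2`
      have q1 : t * (-27) * (v' * (x + 1) ^ 3) =
          6 * (2 * x + 1) * ((3 * x + 1) * (3 * x + 2) - P) * (t * v) := by
        rw [rn]
        have e : -(9 * ((N + x + 1) * (N - x))) = (3 * x + 1) * (3 * x + 2) - P - P * P := by
          rw [hPN]; ring
        calc t * (-27) * (v * (2 * (2 * x + 1)) * ((N + x + 1) * (N - x)))
            = 6 * (2 * x + 1) * (-(9 * ((N + x + 1) * (N - x)))) * (t * v) := by ring
          _ = 6 * (2 * x + 1) * ((3 * x + 1) * (3 * x + 2) - P) * (t * v) := by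
              rw [e, hpp, sub_zero]
      have q2 : t * (-27) * (w' * (x + 1) ^ 3) =
          6 * (2 * x + 1) * ((3 * x + 1) * (3 * x + 2) + 2 * P) * (t * w) := by
        rw [rm]
        have e : -(9 * ((2 * N + x + 1) * (2 * N - x))) =
            (3 * x + 1) * (3 * x + 2) + 2 * P - 4 * (P * P) := by
          rw [hPN]; ring
        calc t * (-27) * (w * (2 * (2 * x + 1)) * ((2 * N + x + 1) * (2 * N - x)))
            = 6 * (2 * x + 1) * (-(9 * ((2 * N + x + 1) * (2 * N - x)))) * (t * w) := by ring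
          _ = 6 * (2 * x + 1) * ((3 * x + 1) * (3 * x + 2) + 2 * P) * (t * w) := by
              rw [e, hpp, mul_zero, sub_zero]
      refine ⟨?_, ?_, ?_⟩
      · apply hu.mul_left_injective
        show 3 * a' * (x + 1) ^ 3 = t * (-27) * (2 * v' + w') * (x + 1) ^ 3
        linear_combination 3 * ra - 2 * q1 - q2 + 6 * (2 * x + 1) * ((3 * x + 1) * (3 * x + 2)) * i1
          + 12 * (2 * x + 1) * i2 - 12 * (2 * x + 1) * i3
      · apply hu.mul_left_injective
        show P * (t * (-27) * v') * (x + 1) ^ 3 = P * a' * (x + 1) ^ 3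
        linear_combination P * q1 - P * ra + 6 * (2 * x + 1) * ((3 * x + 1) * (3 * x + 2)) * i2
          - 6 * (2 * x + 1) * (t * v) * hpp
      · apply hu.mul_left_injective
        show P * (t * (-27) * w') * (x + 1) ^ 3 = P * a' * (x + 1) ^ 3
        linear_combination P * q2 - P * ra + 6 * (2 * x + 1) * ((3 * x + 1) * (3 * x + 2)) * i3
          + 12 * (2 * x + 1) * (t * w) * hpp
  refine ⟨?_, ?_⟩
  · intro k hk
    refine (key k ?_).1
    unfold hh at hk
    omega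
  · intro k hk
    have hk2 : nn p < k := by
      unfold hh at hk
      omega
    refine ⟨by rw [cc_of_lt hk2, Int.cast_zero], ?_⟩
    rcases lt_or_ge (2 * nn p) k with h | h
    · rw [cc_of_lt h, Int.cast_zero]
    · have d1 : p ∣ k.centralBinom := by
        rw [Nat.centralBinom_eq_two_mul_choose, two_mul]
        refine hp.out.dvd_choose_add (by omega) (by omega) ?_
        unfold hh at hk
        omega
      have d2 : p ∣ (2 * nn p + k).choose k := by
        rw [add_comm]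
        refine hp.out.dvd_choose_add (by omega) (by omega) ?_
        unfold hh at hk
        omega
      obtain ⟨x, hx⟩ := d1
      obtain ⟨y, hy⟩ := d2
      have e : cc (2 * nn p) k = (p : ℤ) * p * (((2 * nn p).choose k : ℤ) * y * x) := by
        unfold cc dc
        rw [hx, hy]
        push_cast
        ring
      rw [e]
      push_cast
      rw [← hP, hpp, zero_mul]

end Pool.Agent.helper60.DA
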