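import Pool.Agent.helper60.DA.SpecV
import Pool.Agent.helper46.DA.TC

/-!
# MP_fb2c2a_nt, row dv:IT
-/

set_option autoImplicit false

namespace Pool.Agent.helper60.DA

open Polynomial Finset Pool.Agent.helper60.DK

/-- the telescoping quantity -/
def IT_c (j : ℕ) : ℤ := ak j * (j : ℤ) ^ 3

theorem IT_c_succ (j : ℕ) :
    IT_c (j + 1) = ak j * (6 * (2 * (j : ℤ) + 1) * ((3 * (j : ℤ) + 1) * (3 * j + 2))) := by
  unfold IT_c
  push_cast
  exact TC_aux2 j

theorem IT_sym (h m : ℕ) :
    (m : ℤ) * Iq h ak m = ∑ i ∈ range (h + 1), 2 * ak i *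
      ∑ j ∈ range (h + 1), ((if i + j = m then IT_c j else 0) -
        (if i + (j + 1) = m then IT_c (j + 1) else 0)) := by
  obtain ⟨G, hG⟩ : ∃ G : ℕ → ℕ → ℤ, G = fun i j => (m : ℤ) * (ak i * ak j *
    ((if i + j = m then 2 * (j : ℤ) ^ 2 - i * j else 0)
      - (if i + j + 1 = m then 216 * (j : ℤ) ^ 2 - 108 * i * j + 108 * j + 24 else 0))) := ⟨_, rfl⟩
  obtain ⟨H, hH⟩ : ∃ H : ℕ → ℕ → ℤ, H = fun i j => 2 * ak i *
    ((if i + j = m then IT_c j else 0) - (if i + (j + 1) = m then IT_c (j + 1) else 0)) :=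
    ⟨_, rfl⟩
  have e1 : (m : ℤ) * Iq h ak m = ∑ i ∈ range (h + 1), ∑ j ∈ range (h + 1), G i j := by
    unfold Iq
    rw [Finset.mul_sum]
    refine Finset.sum_congr rfl fun i _ => ?_
    rw [Finset.mul_sum, hG]
  have e2 : (∑ i ∈ range (h + 1), 2 * ak i *
      ∑ j ∈ range (h + 1), ((if i + j = m then IT_c j else 0) -
        (if i + (j + 1) = m then IT_c (j + 1) else 0))) =
      ∑ i ∈ range (h + 1), ∑ j ∈ range (h + 1), H i j := by
    refine Finset.sum_congr rfl fun i _ => ?_
    rw [Finset.mul_sum, hH]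
  rw [e1, e2]
  have hpt : ∀ i j, G i j + G j i = H i j + H j i := by
    intro i j
    rw [hG, hH]
    simp only
    rcases eq_or_ne (i + j) m with h1 | h1
    · subst h1
      have a1 : ¬ (i + j + 1 = i + j) := by omega
      have a2 : ¬ (i + (j + 1) = i + j) := by omega
      have a3 : ¬ (j + i + 1 = i + j) := by omega
      have a4 : ¬ (j + (i + 1) = i + j) := by omega
      have a5 : j + i = i + j := by omega
      rw [if_pos rfl, if_neg a1, if_neg a2, if_neg a3, if_neg a4, if_pos a5, if_pos rfl, if_pos a5]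
      unfold IT_c
      push_cast
      ring
    · rcases eq_or_ne (i + j + 1) m with h2 | h2
      · subst h2
        have a1 : ¬ (i + j = i + j + 1) := by omega
        have a2 : i + (j + 1) = i + j + 1 := by omega
        have a3 : ¬ (j + i = i + j + 1) := by omega
        have a4 : j + (i + 1) = i + j + 1 := by omega
        have a5 : j + i + 1 = i + j + 1 := by omega
        rw [if_neg a1, if_pos rfl, if_neg a3, if_pos a5, if_neg a1, if_pos a2, if_neg a3, if_pos a4,
          IT_c_succ, IT_c_succ]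
        push_cast
        ring
      · have a1 : ¬ (i + (j + 1) = m) := by omega
        have a2 : ¬ (j + i = m) := by omega
        have a3 : ¬ (j + i + 1 = m) := by omega
        have a4 : ¬ (j + (i + 1) = m) := by omega
        rw [if_neg h1, if_neg h2, if_neg a2, if_neg a3, if_neg h1, if_neg a1, if_neg a2, if_neg a4]
        ring
  have s1 : (∑ i ∈ range (h + 1), ∑ j ∈ range (h + 1), G i j) +
      (∑ i ∈ range (h + 1), ∑ j ∈ range (h + 1), G i j) =
      (∑ i ∈ range (h + 1), ∑ j ∈ range (h + 1), H i j) +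
      (∑ i ∈ range (h + 1), ∑ j ∈ range (h + 1), H i j) := by
    have t1 : (∑ i ∈ range (h + 1), ∑ j ∈ range (h + 1), G i j) =
        ∑ i ∈ range (h + 1), ∑ j ∈ range (h + 1), G j i := Finset.sum_comm
    have t2 : (∑ i ∈ range (h + 1), ∑ j ∈ range (h + 1), H i j) =
        ∑ i ∈ range (h + 1), ∑ j ∈ range (h + 1), H j i := Finset.sum_comm
    calc (∑ i ∈ range (h + 1), ∑ j ∈ range (h + 1), G i j) +
        (∑ i ∈ range (h + 1), ∑ j ∈ range (h + 1), G i j)
        = (∑ i ∈ range (h + 1), ∑ j ∈ range (h + 1), G i j) +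
          ∑ i ∈ range (h + 1), ∑ j ∈ range (h + 1), G j i := by rw [← t1]
      _ = ∑ i ∈ range (h + 1), ∑ j ∈ range (h + 1), (G i j + G j i) := by
          simp only [Finset.sum_add_distrib]
      _ = ∑ i ∈ range (h + 1), ∑ j ∈ range (h + 1), (H i j + H j i) :=
          Finset.sum_congr rfl fun i _ => Finset.sum_congr rfl fun j _ => hpt i j
      _ = (∑ i ∈ range (h + 1), ∑ j ∈ range (h + 1), H i j) +
          ∑ i ∈ range (h + 1), ∑ j ∈ range (h + 1), H j i := by
          simp only [Finset.sum_add_distrib]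
      _ = _ := by rw [← t2]
  linarith

theorem IT_mul (h m : ℕ) :
    (m : ℤ) * Iq h ak m = ∑ i ∈ range (h + 1), 2 * ak i *
      (-(if i + (h + 1) = m then IT_c (h + 1) else 0)) := by
  rw [IT_sym]
  refine Finset.sum_congr rfl fun i _ => ?_
  congr 1
  have := Finset.sum_range_sub' (fun j => if i + j = m then IT_c j else 0) (h + 1)
  rw [this]
  have h0 : (if i + 0 = m then IT_c 0 else 0) = 0 := by
    have : IT_c 0 = 0 := by
      unfold IT_c
      push_cast
      ring
    rw [this, ite_self]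
  rw [h0, zero_sub]

theorem IT_ak_dvd (p : ℕ) [hp : Fact p.Prime] (h5 : 5 ≤ p) (h : ℕ) (hh' : p = 2 * h + 1) :
    (p : ℤ) ∣ ak h := by
  have h1 : p ∣ (3 * h).choose h := by
    have e : 3 * h = h + 2 * h := by ring
    rw [e]
    exact hp.out.dvd_choose_add (by omega) (by omega) (by omega)
  unfold ak
  exact Dvd.dvd.mul_left (Int.natCast_dvd_natCast.2 h1) _

theorem IT : IT_stmt := by
  intro p hp h5 m
  have hodd : p % 2 = 1 := by
    rcases hp.out.eq_two_or_odd with h | h
    · omega
    · exact h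
  obtain ⟨h, hh'⟩ : ∃ h, h = hh p := ⟨_, rfl⟩
  have hph : p = 2 * h + 1 := by
    rw [hh']
    unfold hh
    omega
  rw [← hh']
  have hak : (p : ℤ) ∣ ak h := IT_ak_dvd p h5 h hph
  by_cases hm : p ∣ m
  · unfold Iq
    refine Finset.dvd_sum fun i hi => Finset.dvd_sum fun j hj => ?_
    have hi' : i < h + 1 := Finset.mem_range.1 hi
    have hj' : j < h + 1 := Finset.mem_range.1 hj
    rcases eq_or_ne (i + j) m with h1 | h1
    · have hm0 : m = 0 := by
        by_contra hne
        have := Nat.le_of_dvd (Nat.pos_of_ne_zero hne) hm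
        omega
      have hi0 : i = 0 := by omega
      have hj0 : j = 0 := by omega
      subst hi0 hj0 hm0
      simp
    · rcases eq_or_ne (i + j + 1) m with h2 | h2
      · have hle := Nat.le_of_dvd (by omega) hm
        have hi0 : i = h := by omega
        have hj0 : j = h := by omega
        rw [hi0, hj0]
        refine Dvd.dvd.mul_right ?_ _
        rw [pow_two]
        exact mul_dvd_mul hak hak
      · rw [if_neg h1, if_neg h2]
        simp
  · have hdvd : (p : ℤ) ^ 2 ∣ (m : ℤ) * Iq h ak m := by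
      rw [IT_mul]
      refine Finset.dvd_sum fun i _ => ?_
      refine Dvd.dvd.mul_left ?_ _
      rw [dvd_neg]
      split_ifs
      · rw [IT_c_succ, pow_two]
        refine mul_dvd_mul hak ?_
        refine Dvd.dvd.mul_right ?_ _
        refine Dvd.dvd.mul_left ?_ _
        have : (p : ℤ) = 2 * (h : ℤ) + 1 := by exact_mod_cast hph
        rw [this]
      · exact dvd_zero _
    have hcop : IsCoprime ((p : ℤ) ^ 2) (m : ℤ) := by
      apply IsCoprime.pow_left
      rw [Nat.isCoprime_iff_coprime]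
      exact (Nat.Prime.coprime_iff_not_dvd hp.out).2 hm
    exact hcop.dvd_of_dvd_mul_left hdvd

end Pool.Agent.helper60.DA
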